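import Mathlib
import Pool.Agent.Q63.KU.Mot

/-!
# Kimura finite-dimensionality of elementary abelian 2-coverings of the plane

Let `X` be a smooth projective surface which is birational to a covering of the complex projective plane with the group
`G = (ℤ/2)^k`, branched over `s` lines in general position, such that no character of `G` is ramified along
more than six of the lines. Then `X` is Kimura finite-dimensional; more generally, its motive has
every property of motives which is stable under finite sums and summands and holds for the double planes branched
over at most six lines. Examples are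
* all such coverings with at most seven branch lines, for every `k`; for `k = 6` and seven lines these are the
  smooth complete intersections of four diagonal quadrics in `P^6` (general type, `p_g = 7`, `K^2 = 16`, six moduli);
* the bidouble planes branched over three triples of lines (`p_g = 3`, `K^2 = 9`, ten moduli).

The double planes branched over at most four lines are rational, those branched over six lines are K3
surfaces, dominated by the square of a curve of genus five by a theorem of Paranjape.
-/

set_option autoImplicit false

namespace Pool.Agent.Results.MP_868bb7_ag.PlanesOverSixLines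

open CategoryTheory Pool.Agent.Q63.KU

lemma nl_even {k s : ℕ} (g : Fin s → Fin k → ZMod 2) (hg : ∑ i, g i = 0) (a : Fin k → ZMod 2) :
    Even (nl g a) := by
  have h1 : ∑ i, ∑ j, a j * g i j = 0 := by
    rw [Finset.sum_comm]
    refine Finset.sum_eq_zero fun j _ => ?_
    rw [← Finset.mul_sum]
    have := congrFun hg j
    rw [Finset.sum_apply] at this
    rw [this, Pi.zero_apply, mul_zero]
  have h2 : ∀ x : ZMod 2, x = if x ≠ 0 then 1 else 0 := by decide
  rw [Finset.sum_congr rfl fun i _ => h2 (∑ j, a j * g i j), Finset.sum_ite, Finset.sum_const_zero,
    add_zero, Finset.sum_const, nsmul_eq_mul, mul_one] at h1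
  exact (ZMod.natCast_eq_zero_iff_even).1 h1

/-- three triples of lines, with the three nonzero elements of `(ℤ/2)^2` as monodromies -/
def triples (i : Fin 9) : Fin 2 → ZMod 2 :=
  if (i : ℕ) < 3 then ![1, 0] else if (i : ℕ) < 6 then ![0, 1] else ![1, 1]

theorem result {𝒞 : Type} [Category.{0} 𝒞] [Preadditive 𝒞] [Linear ℚ 𝒞] (P : 𝒞 → Prop)
    (hP : SummandClosed P) {k s : ℕ} (g : Fin s → Fin k → ZMod 2) (M : 𝒞)
    (ρ : Multiplicative (Fin k → ZMod 2) →* End M) (Q : (Fin k → ZMod 2) → 𝒞)
    (push : ∀ a, M ⟶ Q a) (pull : ∀ a, Q a ⟶ M) (hM : CoverMotive g P M ρ Q push pull) :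
    ((∀ a, nl g a ≤ 6) → P M) ∧
    (∑ i, g i = 0 → s ≤ 7 → P M) ∧
    (∀ (e : s = 9) (e' : k = 2), (∀ i j, g i j = triples (Fin.cast e i) (Fin.cast e' j)) → P M) := by
  refine ⟨motive_main hP hM, fun h0 h7 => motive_main hP hM fun a => ?_, ?_⟩
  · have h1 : nl g a ≤ 7 := by
      refine le_trans (Finset.card_filter_le _ _) ?_
      rw [Finset.card_univ, Fintype.card_fin]
      exact h7
    obtain ⟨t, ht⟩ := nl_even g h0 a
    omega
  · rintro rfl rfl h
    refine motive_main hP hM fun a => ?_
    have hg : g = triples := by
      funext i j
      exact h i j
    subst hg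
    revert a
    decide

end Pool.Agent.Results.MP_868bb7_ag.PlanesOverSixLines
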