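import Pool.Agent.Q282.UK.Ret
import Pool.Agent.Q263.KT.Defs

/-!
# MP_868bb7_ag: Kimura finite-dimensionality and trilinear forms
-/

set_option autoImplicit false

open CategoryTheory Limits AlgebraicGeometry Pool.Agent.Y116.UV Pool.Agent.Q282.UM
  Pool.Agent.Q282.UK Pool.Agent.Q263.KT

namespace Pool.Agent.Results.MP_868bb7_ag.TrilinearForms

universe v u

/-- The smallest class of motives which contains the Kimura finite-dimensional motives and is closed
under direct sums and direct summands. (By a theorem of Kimura it consists of the Kimura
finite-dimensional motives.) -/
inductive FiniteDimensional {C : Type u} [Category.{v} C] [Preadditive C] [Linear ℚ C]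
    [MonoidalCategory C] [SymmetricCategory C] [HasBinaryBiproducts C] : C → Prop
  | kimura {M : C} : IsKimura M → FiniteDimensional M
  | summand {M N : C} : IsSummand M N → FiniteDimensional N → FiniteDimensional M
  | zero {M : C} : IsZero M → FiniteDimensional M
  | sum {M N : C} : FiniteDimensional M → FiniteDimensional N → FiniteDimensional (M ⊞ N)

/-- **Kimura finite-dimensionality and trilinear forms.** Let `C` be the tensor category of Chow
motives over the perfect field `k` with rational coefficients, and let `W(X)` be the weight complex of
the scheme `X` of finite type over `k`.

* For all `N`, the motives `h(X)(n)` of all smooth projective `X` over `k` of dimension at most `N`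
  are finite-dimensional if and only if for all cubic hypersurfaces `Y : T(x, y, z) = 1`, `T` a
  trilinear form over `k` with a block of at most `N + 2` variables, the twists of `W(Y)` are direct
  summands, in the homotopy category, of complexes of finite-dimensional motives.
* The motives of all smooth projective `X` over `k` are finite-dimensional if and only if this is
  true for all trilinear forms over `k`. -/
theorem result {C : Type u} [Category.{v} C] [Preadditive C] [Linear ℚ C] [MonoidalCategory C]
    [SymmetricCategory C] [HasZeroObject C] [HasBinaryBiproducts C] [HasFiniteBiproducts C]
    (k : Type) [Field k] [PerfectField k] (D : Weights k C) (hD : IsWeights D) :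
    (∀ N : ℕ, ForVarieties D FiniteDimensional N ↔ ForForms D (TermsIn FiniteDimensional) N) ∧
    (ForAllVarieties D FiniteDimensional ↔ ForAllForms D (TermsIn FiniteDimensional)) := by
  have h : IsExtension (FiniteDimensional (C := C)) (TermsIn FiniteDimensional) :=
    ext_terms ⟨fun hs h => .summand hs h, fun _ h => .zero h, fun _ _ h h' => .sum h h'⟩
  exact ⟨forms_dim hD h, forms_all hD h⟩

end Pool.Agent.Results.MP_868bb7_ag.TrilinearForms
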