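import Mathlib
import Pool.Agent.Q63.SP.Motive

/-!
# Kimura finite-dimensionality of complete intersections of two diagonal hypersurfaces

Let `X` be a smooth complete intersection of two diagonal hypersurfaces of the same degree `m` in `P^(n+2)`, for any
`m` and `n`; more generally let `X → P^n` be a smooth abelian covering branched over hyperplanes in general position such
that each character is ramified over at most `n + 3` of them, or over any number of osculating hyperplanes of a rational
normal curve. Then `X` is Kimura finite-dimensional; more generally its motive has every property which is stable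
under finite sums and summands and holds for the motives of products of curves.

1. The geometry, over any algebraically closed field. `n + 3` hyperplanes in general position in `P^n` are osculating
hyperplanes of a rational normal curve. If `P^n` is identified with the space of effective divisors of degree `n` on
`P^1`, these are the sets of the divisors which contain one of `n + 3` points. So the `m`-th root of a
product of powers of the linear forms defines a covering of `P^n` which is the image of the `n`-th power of the curve
`y ^ m = ∏ i, (p i - x) ^ (a i)` under a symmetric map.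

2. The motive of `X` is the sum of the parts for the characters of the covering group, and these are direct summands
of the motives of the cyclic coverings in the first part. (Finite-dimensionality does not depend on the coefficients.)
-/

set_option autoImplicit false

namespace Pool.Agent.Results.MP_868bb7_ag.TwoDiagonalHypersurfaces

open CategoryTheory Pool.Agent.Q63.KU Pool.Agent.Q63.KI Pool.Agent.Q63.SP

theorem result :
    (∀ (k : Type) [Field k] [DecidableEq k] [IsAlgClosed k] (m n s : ℕ), 0 < m → 0 < n →
      ∀ (v : Fin s → Fin (n + 1) → k) (a : Fin s → ℕ),
      (GenPos v ∧ n + 3 ≤ s ∧ (Finset.univ.filter fun i => a i ≠ 0).card ≤ n + 3) ∨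
        Osculating v {i | a i ≠ 0} → IsCurvePower m v a) ∧
    (∀ (𝒞 : Type) [Category.{0} 𝒞] [Preadditive 𝒞] [Linear ℂ 𝒞] (P : 𝒞 → Prop), SummandClosed P →
      ∀ (m s n : ℕ) [NeZero m], 0 < n → ∀ (v : Fin s → Fin (n + 1) → ℂ)
        (Λ : AddSubgroup (Fin s → ZMod m)),
      (GenPos v ∧ n + 3 ≤ s ∧ ∀ a ∈ Λ, lines a ≤ n + 3) ∨ Osculating v Set.univ →
      ∀ (ψ : AddChar (ZMod m) ℂ), ψ.IsPrimitive → ∀ (M : 𝒞)
        (ρ : Multiplicative (Fin s → ZMod m) →* End M) (Q : (Fin s → ZMod m) → 𝒞)
        (push : ∀ a, M ⟶ Q a) (pull : ∀ a, Q a ⟶ M),
      HyperplaneCoverMotive v Λ ψ P M ρ Q push pull → P M) := by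
  refine ⟨?_, ?_⟩
  · intro k _ _ _ m n s hm hn v a h
    refine curvePower_of_osculating hn hm ?_
    rcases h with ⟨hv, hs, hl⟩ | h
    · have h1 := osculating_of_genPos hv hs hl
      rwa [Finset.coe_filter, show {i | i ∈ (Finset.univ : Finset (Fin s)) ∧ a i ≠ 0} =
        {i | a i ≠ 0} by ext i; simp] at h1
    · exact h
  · intro 𝒞 _ _ _ P hP m s n _ hn v Λ h ψ hψ M ρ Q push pull hM
    exact hyper_motive hψ hP hM (isCurvePower hn h)

end Pool.Agent.Results.MP_868bb7_ag.TwoDiagonalHypersurfaces
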