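import Pool.Agent.Q73.CR.Phantom
import Pool.Agent.Q263.NCK.Final
import Pool.Agent.Y110.Kf

/-!
# Finite-dimensionality of varieties whose cohomology is a direct factor of that of `Z`
-/

set_option autoImplicit false

open CategoryTheory AlgebraicGeometry

universe u v w

namespace Pool.Agent.Results.MP_868bb7_ag.UniqueDecompositions

open Pool.Agent.H914 Pool.Agent.W492.BB Pool.Agent.W550.Corr Pool.Agent.TH133 Pool.Agent.Y107 Pool.Agent.Q69.Murre
  Pool.Agent.TH829.Prime Pool.Agent.TH829.Kim Pool.Agent.Y110 Pool.Agent.Q73.CR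

/-- Let the cohomology of `X` be, via correspondences `α` and `β` of degree zero, a direct factor of
the cohomology of the Kimura-finite variety `Z`, which has a Chow-Kunneth decomposition `π`. Then the
following are equivalent: `X` is Kimura-finite; `α` makes the Chow motive of `X` a direct factor of
that of `Z`; homologically trivial self-correspondences of `X` are nilpotent; homologically trivial
idempotents of `X` are zero; the Chow-Kunneth decomposition of `X` is unique up to conjugation. -/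
theorem result {k : Type u} [Field k] {𝒱 : VarClass k} (C : TheoryData.{u, v, 0} 𝒱 ℚ)
    [IsChowProj C] {K : Type w} [Field K] (H : WeilTheoryData.{u, v, w} C K) [IsWeilProj H]
    {X Z : 𝒱.Obj} (hX : 1 ≤ X.dim) {α : C.A (X.prod Z)} {β : C.A (Z.prod X)}
    (hF : CohomologyFactor H (fun _ => True) α β) (hZ : IsKimuraFinite C (ratFam C) Z)
    {π : ℕ → C.A (Z.prod Z)} (hπ : IsCK H Z π) :
    (∃ p : ℕ → C.A (X.prod X), IsCK H X p) ∧
    List.TFAE [IsKimuraFinite C (ratFam C) X, MotiveFactor C α, HomNilpotent H X,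
      NoPhantoms H X, UniqueUpToConjugation H X] := by
  have nil : ∀ {Y : 𝒱.Obj}, IsKimuraFinite C (ratFam C) Y →
      ∀ γ : Cor C Y, HT H γ → IsNilpotent γ := by
    intro Y hY γ hγ
    obtain ⟨n, hn⟩ := isNilpotent_of_kimura (H := H) hY (x := ofA γ hγ.1) hγ.2
    exact ⟨n, congrArg Subtype.val hn⟩
  have hn := nil hZ
  obtain ⟨p, ε, b, h⟩ := exists_phantom' hF (homNilpotent_iff.2 hn) hπ
  refine ⟨⟨_, h.ck 0 (by omega)⟩, ?_⟩
  tfae_have 1 → 3 := fun h1 => homNilpotent_iff.2 (nil h1)
  tfae_have 3 → 4 := by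
    intro h3 q hq hqq hcl
    exact zero_of_mul_left (x := cr q) (y := cr q) (homNilpotent_iff.1 h3 q ⟨hq, hcl⟩) hqq.symm
  tfae_have 4 → 2 := fun h4 => h.factor (h4 ε h.ht.1 h.idem h.ht.2)
  tfae_have 2 → 1 := by
    rintro ⟨β', h2, h3⟩
    exact Pool.Agent.Q263.NCK.of_summand (I := Unit) (one_ne H) (Y := fun _ => Z)
      (fun _ => hZ) (X := X) (fun _ => α) (fun _ => β') (by rw [Fintype.sum_unique]; exact h3)
  tfae_have 3 → 5 := by
    intro h3 P P' hP hP'
    obtain ⟨s, t, hs, ht, e1, e2, e3, e4⟩ := exists_conj (homNilpotent_iff.1 h3) (isCK_cr hP)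
      (isCK_cr hP')
    refine ⟨s, t, hs, ht, e2, e1, e3, fun i => ?_⟩
    exact (e4 i).trans (comp_assoc C _ _ _).symm
  tfae_have 5 → 2 := by
    intro h5
    obtain ⟨s, t, hs, ht, e1, e2, e3, e4⟩ := h5 _ _ (h.ck 0 (by omega)) (h.ck 1 (by omega))
    refine h.factor (h.zero_of_conj hF.deg_left hX hn ⟨s, t, hs, ht, e1, ?_⟩)
    exact (e4 0).trans (comp_assoc C _ _ _)
  tfae_finish

end Pool.Agent.Results.MP_868bb7_ag.UniqueDecompositions
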